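import Mathlib

/-!
# The gadget lemma for packing unit disks (elementary inequalities)
-/

set_option autoImplicit false

namespace Pool.Agent.Helper97.UDP

/-- A real number is bounded by a nonnegative one if its square is. -/
theorem gad_le_of_sq {A X : ℝ} (hX : 0 ≤ X) (h : A ^ 2 ≤ X ^ 2) : A ≤ X := by
  by_contra hlt
  push Not at hlt
  nlinarith

/-- Tool T0. -/
theorem gad_t0 {X Y c L : ℝ} (hX : 0 ≤ X) (h : 4 ≤ X ^ 2 + Y ^ 2) (h1 : -c ≤ Y) (h2 : Y ≤ c)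
    (hL : L ^ 2 + c ^ 2 ≤ 4) : L ≤ X := by
  apply gad_le_of_sq hX
  have : Y ^ 2 ≤ c ^ 2 := by nlinarith
  linarith

/-- Tool T0, for the second coordinate. -/
theorem gad_t0' {X Y c L : ℝ} (hY : 0 ≤ Y) (h : 4 ≤ X ^ 2 + Y ^ 2) (h1 : -c ≤ X) (h2 : X ≤ c)
    (hL : L ^ 2 + c ^ 2 ≤ 4) : L ≤ Y := by
  apply gad_le_of_sq hY
  have : X ^ 2 ≤ c ^ 2 := by nlinarith
  linarith

/-- Squares of small numbers. -/
theorem gad_sq_le {u U c : ℝ} (h1 : -U ≤ u) (h2 : u ≤ U) (h3 : U ≤ c) : u ^ 2 ≤ U * c := by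
  nlinarith

/-- Tangent bound at height one. -/
theorem gad_T1 {r X Y x : ℝ} (hr : r ^ 2 = 3) (hr1 : 1.73205 ≤ r) (hX : 0 ≤ X)
    (h : 4 ≤ X ^ 2 + Y ^ 2) (h1 : -(1 + x) ≤ Y) (h2 : Y ≤ 1 + x) (hx1 : -(1 / 2) ≤ x)
    (hx2 : x ≤ 1 / 2) : r - x * r / 3 - x ^ 2 / 2 ≤ X := by
  apply gad_le_of_sq hX
  have hY : Y ^ 2 ≤ (1 + x) ^ 2 := by nlinarith
  have key : 4 / 3 - r * (1 - x / 3) + x ^ 2 / 4 ≤ 0 := by nlinarith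
  have e : (r - x * r / 3 - x ^ 2 / 2) ^ 2 =
      4 - (1 + x) ^ 2 + x ^ 2 * (4 / 3 - r * (1 - x / 3) + x ^ 2 / 4) := by
    have : (r - x * r / 3 - x ^ 2 / 2) ^ 2 =
      r ^ 2 * (1 - x / 3) ^ 2 - r * (1 - x / 3) * x ^ 2 + x ^ 4 / 4 := by ring
    rw [this, hr]
    ring
  rw [e]
  have := mul_nonneg (sq_nonneg x) (neg_nonneg.mpr key)
  nlinarith

/-- Tangent bound at height `2/7`. -/
theorem gad_T2 {r X Y x : ℝ} (hr : r ^ 2 = 3) (hr1 : 1.73205 ≤ r) (hX : 0 ≤ X)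
    (h : 4 ≤ X ^ 2 + Y ^ 2) (h1 : -(2 / 7 + x) ≤ Y) (h2 : Y ≤ 2 / 7 + x) (hx1 : -1 ≤ x)
    (hx2 : x ≤ 1) (hr2 : r ≤ 1.73206) : 8 / 7 * r - x * r / 12 - x ^ 2 / 3 ≤ X := by
  apply gad_le_of_sq hX
  have hY : Y ^ 2 ≤ (2 / 7 + x) ^ 2 := by nlinarith
  have key : 1 - 16 / 21 * r + 1 / 48 + x * r / 18 + x ^ 2 / 9 ≤ 0 := by nlinarith
  have e : (8 / 7 * r - x * r / 12 - x ^ 2 / 3) ^ 2 =
      4 - (2 / 7 + x) ^ 2 + x ^ 2 * (1 - 16 / 21 * r + 1 / 48 + x * r / 18 + x ^ 2 / 9) := by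
    have : (8 / 7 * r - x * r / 12 - x ^ 2 / 3) ^ 2 =
      r ^ 2 * (8 / 7 - x / 12) ^ 2 - 2 * r * (8 / 7 - x / 12) * x ^ 2 / 3 + x ^ 4 / 9 := by ring
    rw [this, hr]
    ring
  rw [e]
  have := mul_nonneg (sq_nonneg x) (neg_nonneg.mpr key)
  nlinarith

/-- Round 0 to 3 of the numerical bootstrap. -/
theorem gad_rounds {τ γ v v' s a1 y1 b1 z1 p yp q yq a2 y2 b2 z2 : ℝ} (hτ0 : 0 < τ)
    (hτ : τ ≤ 1 / 2 ^ 14) (hγ : 0 ≤ γ) (hγ' : γ ≤ 2 * τ) (hv : |v| ≤ τ) (hv' : |v'| ≤ τ)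
    (hs : s ≤ 7.42327)
    (hy1 : 0 ≤ y1 ∧ y1 ≤ 1 + γ) (hz1 : 0 ≤ z1 ∧ z1 ≤ 1 + γ) (hy2 : 0 ≤ y2 ∧ y2 ≤ 1 + γ)
    (hz2 : 0 ≤ z2 ∧ z2 ≤ 1 + γ) (hyp : 0 ≤ yp ∧ yp ≤ 9 / 7 - 4 * γ)
    (hyq : 0 ≤ yq ∧ yq ≤ 9 / 7 - 4 * γ)
    (ha1 : 0 ≤ a1) (hb1 : 0 ≤ b1) (ha2 : 0 ≤ a2) (hb2 : 0 ≤ b2)
    (hap : a1 ≤ p) (hbq : b1 ≤ q) (hpa : p ≤ s - a2) (hqb : q ≤ s - b2)
    (d1 : 4 ≤ a1 ^ 2 + (y1 - v) ^ 2) (d2 : 4 ≤ b1 ^ 2 + (z1 + v) ^ 2)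
    (d3 : 4 ≤ a2 ^ 2 + (y2 - v') ^ 2) (d4 : 4 ≤ b2 ^ 2 + (z2 + v') ^ 2)
    (d5 : 4 ≤ (p - a1) ^ 2 + (yp - y1) ^ 2) (d6 : 4 ≤ (q - b1) ^ 2 + (yq - z1) ^ 2)
    (d7 : 4 ≤ (s - a2 - p) ^ 2 + (yp - y2) ^ 2) (d8 : 4 ≤ (s - b2 - q) ^ 2 + (yq - z2) ^ 2)
    (d9 : 4 ≤ (a1 - b1) ^ 2 + (y1 + z1) ^ 2) (d10 : 4 ≤ (a2 - b2) ^ 2 + (y2 + z2) ^ 2)
    (d11 : 4 ≤ (p - q) ^ 2 + (yp + yq) ^ 2) :
    (1.7319 ≤ a1 ∧ 1.7319 ≤ a2 ∧ 1.7319 ≤ b1 ∧ 1.7319 ≤ b2) ∧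
    (0.99976 ≤ y1 ∧ 0.99976 ≤ y2 ∧ 0.99976 ≤ z1 ∧ 0.99976 ≤ z2) ∧
    (1.99989 ≤ yp + yq ∧ -0.0207 ≤ p - q ∧ p - q ≤ 0.0207) := by
  obtain ⟨hv1, hv2⟩ := abs_le.mp hv
  obtain ⟨hv1', hv2'⟩ := abs_le.mp hv'
  have hτ' : τ ≤ 0.0000611 := hτ.trans (by norm_num)
  have hγ2 : γ ≤ 0.0001222 := by linarith
  obtain ⟨y10, y11⟩ := hy1
  obtain ⟨y20, y21⟩ := hy2
  obtain ⟨z10, z11⟩ := hz1
  obtain ⟨z20, z21⟩ := hz2
  obtain ⟨yp0, yp1⟩ := hyp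
  obtain ⟨yq0, yq1⟩ := hyq
  -- round 0
  have A1 : 1.7319 ≤ a1 := gad_t0 (c := 1.000184) ha1 d1 (by linarith) (by linarith) (by norm_num)
  have A2 : 1.7319 ≤ a2 := gad_t0 (c := 1.000184) ha2 d3 (by linarith) (by linarith) (by norm_num)
  have B1 : 1.7319 ≤ b1 := gad_t0 (c := 1.000184) hb1 d2 (by linarith) (by linarith) (by norm_num)
  have B2 : 1.7319 ≤ b2 := gad_t0 (c := 1.000184) hb2 d4 (by linarith) (by linarith) (by norm_num)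
  have g1 : 0 ≤ p - a1 := by linarith
  have g2 : 0 ≤ s - a2 - p := by linarith
  have g3 : 0 ≤ q - b1 := by linarith
  have g4 : 0 ≤ s - b2 - q := by linarith
  -- round 1
  have G1 : 1.5319 ≤ p - a1 := gad_t0 (c := 9 / 7) g1 d5 (by linarith) (by linarith) (by norm_num)
  have G2 : 1.5319 ≤ s - a2 - p :=
    gad_t0 (c := 9 / 7) g2 d7 (by linarith) (by linarith) (by norm_num)
  have G3 : 1.5319 ≤ q - b1 := gad_t0 (c := 9 / 7) g3 d6 (by linarith) (by linarith) (by norm_num)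
  have G4 : 1.5319 ≤ s - b2 - q :=
    gad_t0 (c := 9 / 7) g4 d8 (by linarith) (by linarith) (by norm_num)
  have Y1 : 1.7882 ≤ y1 + z1 :=
    gad_t0' (c := 0.8957) (by linarith) d9 (by linarith) (by linarith) (by norm_num)
  have Y2 : 1.7882 ≤ y2 + z2 :=
    gad_t0' (c := 0.8957) (by linarith) d10 (by linarith) (by linarith) (by norm_num)
  -- round 2
  have G1' : 1.7319 ≤ p - a1 :=
    gad_t0 (c := 1.000123) g1 d5 (by linarith) (by linarith) (by norm_num)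
  have G2' : 1.7319 ≤ s - a2 - p :=
    gad_t0 (c := 1.000123) g2 d7 (by linarith) (by linarith) (by norm_num)
  have G3' : 1.7319 ≤ q - b1 :=
    gad_t0 (c := 1.000123) g3 d6 (by linarith) (by linarith) (by norm_num)
  have G4' : 1.7319 ≤ s - b2 - q :=
    gad_t0 (c := 1.000123) g4 d8 (by linarith) (by linarith) (by norm_num)
  have Y1' : 1.9375 ≤ y1 + z1 :=
    gad_t0' (c := 0.4957) (by linarith) d9 (by linarith) (by linarith) (by norm_num)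
  have Y2' : 1.9375 ≤ y2 + z2 :=
    gad_t0' (c := 0.4957) (by linarith) d10 (by linarith) (by linarith) (by norm_num)
  have PQ : 1.9375 ≤ yp + yq :=
    gad_t0' (c := 0.4957) (by linarith) d11 (by linarith) (by linarith) (by norm_num)
  -- round 3
  have H1 : 1.9694 ≤ p - a1 :=
    gad_t0 (c := 0.3485) g1 d5 (by linarith) (by linarith) (by norm_num)
  have H2 : 1.9694 ≤ s - a2 - p :=
    gad_t0 (c := 0.3485) g2 d7 (by linarith) (by linarith) (by norm_num)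
  have H3 : 1.9694 ≤ q - b1 :=
    gad_t0 (c := 0.3485) g3 d6 (by linarith) (by linarith) (by norm_num)
  have H4 : 1.9694 ≤ s - b2 - q :=
    gad_t0 (c := 0.3485) g4 d8 (by linarith) (by linarith) (by norm_num)
  have Y1'' : 1.99989 ≤ y1 + z1 :=
    gad_t0' (c := 0.0207) (by linarith) d9 (by linarith) (by linarith) (by norm_num)
  have Y2'' : 1.99989 ≤ y2 + z2 :=
    gad_t0' (c := 0.0207) (by linarith) d10 (by linarith) (by linarith) (by norm_num)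
  have PQ'' : 1.99989 ≤ yp + yq :=
    gad_t0' (c := 0.0207) (by linarith) d11 (by linarith) (by linarith) (by norm_num)
  refine ⟨⟨A1, A2, B1, B2⟩, ⟨?_, ?_, ?_, ?_⟩, PQ'', ?_, ?_⟩ <;> linarith

/-- A short horizontal distance forces a vertical one. -/
theorem gad_low {X Y : ℝ} (hX : 0 ≤ X) (hX2 : X ≤ 1.979735) (h : 4 ≤ X ^ 2 + Y ^ 2)
    (hY : -0.001 ≤ Y) : 0.28398 ≤ Y := by
  by_contra hlt
  push Not at hlt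
  have h1 : X ^ 2 ≤ 1.979735 ^ 2 := by nlinarith
  have h2 : Y ^ 2 ≤ 0.28398 ^ 2 := by nlinarith
  norm_num at h1 h2
  linarith

/-- Half of a chain. -/
theorem gad_half {r τ A B x y : ℝ} (hr1 : 1.73205 ≤ r) (hr2 : r ≤ 1.73206) (hτ0 : 0 < τ)
    (hτ : τ ≤ 0.0000611) (hA : r - x * r / 3 - x ^ 2 / 2 ≤ A)
    (hB : 8 / 7 * r - y * r / 12 - y ^ 2 / 3 ≤ B) (x1 : x ≤ 3 * τ) (x2 : x ^ 2 ≤ 169 * τ ^ 2)
    (y1 : y ≤ 10 * τ) (y2 : y ^ 2 ≤ 676 * τ ^ 2) : 15 / 7 * r - 3.4 * τ ≤ A + B := by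
  have m3 : 0 ≤ (1.73206 - r) * τ := mul_nonneg (by linarith) hτ0.le
  have m4 : 0 ≤ r * (3 * τ - x) := mul_nonneg (by linarith) (by linarith)
  have m5 : 0 ≤ r * (10 * τ - y) := mul_nonneg (by linarith) (by linarith)
  have n3 : 0 ≤ τ * (0.0000611 - τ) := mul_nonneg hτ0.le (by linarith)
  linarith

/-- The upper chain when its middle disk is high. -/
theorem gad_upper {r τ γ v v' s a1 y1 p yp a2 y2 : ℝ} (hr : r ^ 2 = 3) (hr1 : 1.73205 ≤ r)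
    (hr2 : r ≤ 1.73206) (hτ0 : 0 < τ)
    (hτ : τ ≤ 0.0000611) (hγ : 0 ≤ γ) (hγ' : γ ≤ 2 * τ) (hv1 : -τ ≤ v) (hv2 : v ≤ τ)
    (hv1' : -τ ≤ v') (hv2' : v' ≤ τ) (hs : s ≤ 7.42327) (hs' : s ≤ 30 / 7 * r + 3 * τ)
    (y10 : 0.99976 ≤ y1) (y11 : y1 ≤ 1 + γ) (y20 : 0.99976 ≤ y2) (y21 : y2 ≤ 1 + γ)
    (A1 : 1.7319 ≤ a1) (A2 : 1.7319 ≤ a2) (yp0 : 1 ≤ yp) (yp1 : yp ≤ 9 / 7 - 4 * γ)
    (hap : a1 ≤ p) (hpa : p ≤ s - a2)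
    (d1 : 4 ≤ a1 ^ 2 + (y1 - v) ^ 2) (d3 : 4 ≤ a2 ^ 2 + (y2 - v') ^ 2)
    (d5 : 4 ≤ (p - a1) ^ 2 + (yp - y1) ^ 2) (d7 : 4 ≤ (s - a2 - p) ^ 2 + (yp - y2) ^ 2) :
    30 / 7 * r + (v + v' + γ / 2) * r / 3 - 600 * τ ^ 2 ≤ s ∧
    15 / 7 * r - 3.4 * τ ≤ p ∧ p ≤ s - (15 / 7 * r - 3.4 * τ) ∧
    9 / 7 - 4 * γ - 16 * τ ≤ yp := by
  obtain ⟨α, hα⟩ : ∃ α, α = 1 + γ - y1 := ⟨_, rfl⟩
  obtain ⟨β, hβ⟩ : ∃ β, β = 1 + γ - y2 := ⟨_, rfl⟩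
  obtain ⟨π, hπ⟩ : ∃ π, π = 9 / 7 - 4 * γ - yp := ⟨_, rfl⟩
  have α0 : 0 ≤ α := by linarith
  have β0 : 0 ≤ β := by linarith
  have π0 : 0 ≤ π := by linarith
  have α1 : α ≤ 0.0004 := by linarith
  have β1 : β ≤ 0.0004 := by linarith
  have π1 : π ≤ 0.002 := by
    rcases le_total (p - a1) (s - a2 - p) with h | h
    · have := gad_low (by linarith) (by linarith) d5 (by linarith)
      linarith
    · have := gad_low (by linarith) (by linarith) d7 (by linarith)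
      linarith
  have t1 := gad_T1 (x := γ - α - v) hr hr1 (by linarith) d1 (by linarith) (by linarith)
    (by linarith) (by linarith)
  have t2 := gad_T1 (x := γ - β - v') hr hr1 (by linarith) d3 (by linarith) (by linarith)
    (by linarith) (by linarith)
  have t3 := gad_T2 (x := -5 * γ - π + α) hr hr1 (by linarith) d5 (by linarith) (by linarith)
    (by linarith) (by linarith) hr2
  have t4 := gad_T2 (x := -5 * γ - π + β) hr hr1 (by linarith) d7 (by linarith) (by linarith)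
    (by linarith) (by linarith) hr2
  -- first, crude bounds of the squares
  have q1 : (γ - α - v) ^ 2 ≤ (3 * τ + α) * 0.0006 :=
    gad_sq_le (by linarith) (by linarith) (by linarith)
  have q2 : (γ - β - v') ^ 2 ≤ (3 * τ + β) * 0.0006 :=
    gad_sq_le (by linarith) (by linarith) (by linarith)
  have q3 : (-5 * γ - π + α) ^ 2 ≤ (10 * τ + π + α) * 0.0031 :=
    gad_sq_le (by linarith) (by linarith) (by linarith)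
  have q4 : (-5 * γ - π + β) ^ 2 ≤ (10 * τ + π + β) * 0.0031 :=
    gad_sq_le (by linarith) (by linarith) (by linarith)
  have m1 : 0 ≤ (r - 1.73205) * (π / 2 + 3 / 4 * (α + β)) :=
    mul_nonneg (by linarith) (by linarith)
  have m2 : 0 ≤ (r - 1.73205) * (v + v' + γ / 2 + 2 * τ) :=
    mul_nonneg (by linarith) (by linarith)
  have m3 : 0 ≤ (1.73206 - r) * τ := mul_nonneg (by linarith) hτ0.le
  have sum1 : 30 / 7 * r + (v + v' + γ / 2 + π / 2 + 3 / 4 * (α + β)) * r / 3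
      - ((γ - α - v) ^ 2 + (γ - β - v') ^ 2) / 2
      - ((-5 * γ - π + α) ^ 2 + (-5 * γ - π + β) ^ 2) / 3 ≤ s := by
    linarith [t1, t2, t3, t4]
  have key : 0.286 * π + 0.43 * (α + β) ≤ 4.2 * τ := by
    linarith [sum1, q1, q2, q3, q4, m1, m2, m3]
  have π2 : π ≤ 16 * τ := by linarith
  have αβ : α + β ≤ 10 * τ := by linarith
  -- sharper bounds of the squares
  have w1 : (γ - α - v) ^ 2 ≤ (3 * τ + α) * (13 * τ) :=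
    gad_sq_le (by linarith) (by linarith) (by linarith)
  have w2 : (γ - β - v') ^ 2 ≤ (3 * τ + β) * (13 * τ) :=
    gad_sq_le (by linarith) (by linarith) (by linarith)
  have w3 : (-5 * γ - π + α) ^ 2 ≤ (26 * τ) * (26 * τ) :=
    gad_sq_le (by linarith) (by linarith) le_rfl
  have w4 : (-5 * γ - π + β) ^ 2 ≤ (26 * τ) * (26 * τ) :=
    gad_sq_le (by linarith) (by linarith) le_rfl
  have n1 : 0 ≤ τ * (10 * τ - (α + β)) := mul_nonneg hτ0.le (by linarith)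
  have n2 : 0 ≤ r * (π / 2 + 3 / 4 * (α + β)) := mul_nonneg (by linarith) (by linarith)
  have n3 : 0 ≤ τ * (0.0000611 - τ) := mul_nonneg hτ0.le (by linarith)
  have n0 : 0 ≤ τ ^ 2 := sq_nonneg τ
  have sx : (3 * τ + α) * (13 * τ) ≤ 169 * τ ^ 2 := by
    have : 0 ≤ τ * (10 * τ - α) := mul_nonneg hτ0.le (by linarith)
    linarith
  have sy : (3 * τ + β) * (13 * τ) ≤ 169 * τ ^ 2 := by
    have : 0 ≤ τ * (10 * τ - β) := mul_nonneg hτ0.le (by linarith)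
    linarith
  have sz : 26 * τ * (26 * τ) = 676 * τ ^ 2 := by ring
  refine ⟨?_, ?_, ?_, by linarith⟩
  · clear q1 q2 q3 q4 t1 t2 t3 t4 d1 d3 d5 d7 m1 m2 m3
    linarith [sum1, w1, w2, w3, w4, n1, n2, n0]
  · have l1 : γ - α - v ≤ 3 * τ := by clear * - hγ' α0 hv1; linarith
    have l2 : -5 * γ - π + α ≤ 10 * τ := by clear * - hγ αβ π0 β0; linarith
    have := gad_half hr1 hr2 hτ0 hτ t1 t3 l1 (w1.trans sx) l2 (w3.trans sz.le)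
    clear * - this
    linarith
  · have l1 : γ - β - v' ≤ 3 * τ := by clear * - hγ' β0 hv1'; linarith
    have l2 : -5 * γ - π + β ≤ 10 * τ := by clear * - hγ αβ π0 α0; linarith
    have := gad_half hr1 hr2 hτ0 hτ t2 t4 l1 (w2.trans sy) l2 (w4.trans sz.le)
    clear * - this
    linarith

/-- The lower chain when its middle disk is low: first estimates. -/
theorem gad_lower1 {r τ γ v v' s b1 z1 q yq b2 z2 π ρ : ℝ} (hr : r ^ 2 = 3)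
    (hr1 : 1.73205 ≤ r) (hr2 : r ≤ 1.73206) (hτ0 : 0 < τ)
    (hτ : τ ≤ 0.0000611) (hγ : 0 ≤ γ) (hγ' : γ ≤ 2 * τ) (hv1 : -τ ≤ v) (hv2 : v ≤ τ)
    (hv1' : -τ ≤ v') (hv2' : v' ≤ τ) (hs' : s ≤ 30 / 7 * r + 3 * τ)
    (z10 : 0.99976 ≤ z1) (z11 : z1 ≤ 1 + γ) (z20 : 0.99976 ≤ z2) (z21 : z2 ≤ 1 + γ)
    (B1 : 0 ≤ b1) (B2 : 0 ≤ b2) (yq0 : yq ≤ 1) (yq1 : 5 / 7 - ρ + 4 * γ + π ≤ yq)
    (π0 : 0 ≤ π) (π1 : π ≤ 16 * τ) (ρ0 : 0 ≤ ρ) (ρ1 : ρ ≤ 0.00015)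
    (hbq : b1 ≤ q) (hqb : q ≤ s - b2)
    (d2 : 4 ≤ b1 ^ 2 + (z1 + v) ^ 2) (d4 : 4 ≤ b2 ^ 2 + (z2 + v') ^ 2)
    (d6 : 4 ≤ (q - b1) ^ 2 + (yq - z1) ^ 2) (d8 : 4 ≤ (s - b2 - q) ^ 2 + (yq - z2) ^ 2) :
    ∃ α β : ℝ, 0 ≤ α ∧ 0 ≤ β ∧ α + β ≤ 6.7 * τ + 0.41 * ρ ∧
      15 / 7 * r - 1.8 * τ - 0.15 * ρ ≤ q ∧ 15 / 7 * r - 1.8 * τ - 0.15 * ρ ≤ s - q ∧
      30 / 7 * r - (v + v' + γ / 2 + ρ / 2) * r / 3
      - ((γ - α + v) ^ 2 + (γ - β + v') ^ 2) / 2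
      - ((-3 * γ - α - π + ρ) ^ 2 + (-3 * γ - β - π + ρ) ^ 2) / 3 ≤ s := by
  obtain ⟨α, hα⟩ : ∃ α, α = 1 + γ - z1 := ⟨_, rfl⟩
  obtain ⟨β, hβ⟩ : ∃ β, β = 1 + γ - z2 := ⟨_, rfl⟩
  have α0 : 0 ≤ α := by linarith
  have β0 : 0 ≤ β := by linarith
  have α1 : α ≤ 0.0004 := by linarith
  have β1 : β ≤ 0.0004 := by linarith
  have t1 := gad_T1 (x := γ - α + v) hr hr1 B1 d2 (by linarith) (by linarith)
    (by linarith) (by linarith)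
  have t2 := gad_T1 (x := γ - β + v') hr hr1 B2 d4 (by linarith) (by linarith)
    (by linarith) (by linarith)
  have t3 := gad_T2 (x := -3 * γ - α - π + ρ) hr hr1 (by linarith) d6 (by linarith) (by linarith)
    (by linarith) (by linarith) hr2
  have t4 := gad_T2 (x := -3 * γ - β - π + ρ) hr hr1 (by linarith) d8 (by linarith) (by linarith)
    (by linarith) (by linarith) hr2
  clear d2 d4 d6 d8
  have q1 : (γ - α + v) ^ 2 ≤ (3 * τ + α) * 0.0006 :=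
    gad_sq_le (by linarith) (by linarith) (by linarith)
  have q2 : (γ - β + v') ^ 2 ≤ (3 * τ + β) * 0.0006 :=
    gad_sq_le (by linarith) (by linarith) (by linarith)
  have q3 : (-3 * γ - α - π + ρ) ^ 2 ≤ (22 * τ + α + ρ) * 0.002 :=
    gad_sq_le (by linarith) (by linarith) (by linarith)
  have q4 : (-3 * γ - β - π + ρ) ^ 2 ≤ (22 * τ + β + ρ) * 0.002 :=
    gad_sq_le (by linarith) (by linarith) (by linarith)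
  have m1 : 0 ≤ (r - 1.73205) * (5 / 4 * (α + β)) := mul_nonneg (by linarith) (by linarith)
  have m2 : 0 ≤ r * (3 * τ - (v + v' + γ / 2)) := mul_nonneg (by linarith) (by linarith)
  have m3 : 0 ≤ (1.73206 - r) * τ := mul_nonneg (by linarith) hτ0.le
  have m4 : 0 ≤ (1.73206 - r) * ρ := mul_nonneg (by linarith) ρ0
  have m5 : 0 ≤ r * π := mul_nonneg (by linarith) π0
  have m6 : 0 ≤ r * (α + β) := mul_nonneg (by linarith) (by linarith)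
  have sum1 : 30 / 7 * r + (5 / 4 * (α + β) + π / 2 - (v + v' + γ / 2 + ρ / 2)) * r / 3
      - ((γ - α + v) ^ 2 + (γ - β + v') ^ 2) / 2
      - ((-3 * γ - α - π + ρ) ^ 2 + (-3 * γ - β - π + ρ) ^ 2) / 3 ≤ s := by
    clear * - t1 t2 t3 t4
    linarith [t1, t2, t3, t4]
  have αβ : α + β ≤ 6.7 * τ + 0.41 * ρ := by
    clear * - sum1 q1 q2 q3 q4 m1 m2 m3 m4 m5 hs' hτ0 ρ0
    linarith
  have k1 : 0 ≤ r * (3 * τ - (γ - α + v)) :=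
    mul_nonneg (by linarith) (by clear * - hγ' α0 hv2; linarith)
  have k2 : 0 ≤ r * (3 * τ - (γ - β + v')) :=
    mul_nonneg (by linarith) (by clear * - hγ' β0 hv2'; linarith)
  have k3 : 0 ≤ r * (3 * γ + α + π) := mul_nonneg (by linarith) (by clear * - hγ π0 α0; linarith)
  have k4 : 0 ≤ r * (3 * γ + β + π) := mul_nonneg (by linarith) (by clear * - hγ π0 β0; linarith)
  refine ⟨α, β, α0, β0, αβ, ?_, ?_, ?_⟩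
  · clear * - t1 t3 q1 q3 k1 k3 m3 m4 αβ β0 hτ0 ρ0
    linarith
  · clear * - t2 t4 q2 q4 k2 k4 m3 m4 αβ α0 hτ0 ρ0
    linarith
  · clear * - sum1 m5 m6
    linarith

/-- The lower chain when its middle disk is low and the upper one is high. -/
theorem gad_lower {r τ γ v v' s b1 z1 p q yp yq b2 z2 : ℝ} (hr : r ^ 2 = 3)
    (hr1 : 1.73205 ≤ r) (hr2 : r ≤ 1.73206) (hτ0 : 0 < τ)
    (hτ : τ ≤ 0.0000611) (hγ : 0 ≤ γ) (hγ' : γ ≤ 2 * τ) (hv1 : -τ ≤ v) (hv2 : v ≤ τ)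
    (hv1' : -τ ≤ v') (hv2' : v' ≤ τ) (hs' : s ≤ 30 / 7 * r + 3 * τ)
    (z10 : 0.99976 ≤ z1) (z11 : z1 ≤ 1 + γ) (z20 : 0.99976 ≤ z2) (z21 : z2 ≤ 1 + γ)
    (B1 : 0 ≤ b1) (B2 : 0 ≤ b2) (yq0 : yq ≤ 1) (yq00 : 0 ≤ yq)
    (yp1 : yp ≤ 9 / 7 - 4 * γ) (yp2 : 9 / 7 - 4 * γ - 16 * τ ≤ yp)
    (p1 : 15 / 7 * r - 3.4 * τ ≤ p) (p2 : p ≤ s - (15 / 7 * r - 3.4 * τ))
    (pq1 : -0.0207 ≤ p - q) (pq2 : p - q ≤ 0.0207)
    (hbq : b1 ≤ q) (hqb : q ≤ s - b2)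
    (d2 : 4 ≤ b1 ^ 2 + (z1 + v) ^ 2) (d4 : 4 ≤ b2 ^ 2 + (z2 + v') ^ 2)
    (d6 : 4 ≤ (q - b1) ^ 2 + (yq - z1) ^ 2) (d8 : 4 ≤ (s - b2 - q) ^ 2 + (yq - z2) ^ 2)
    (d11 : 4 ≤ (p - q) ^ 2 + (yp + yq) ^ 2) :
    30 / 7 * r - (v + v' + γ / 2) * r / 3 - 1000 * τ ^ 2 ≤ s := by
  obtain ⟨π, hπ⟩ : ∃ π, π = 9 / 7 - 4 * γ - yp := ⟨_, rfl⟩
  obtain ⟨ρ, hρ⟩ : ∃ ρ, ρ = (p - q) ^ 2 / 3 := ⟨_, rfl⟩
  have π0 : 0 ≤ π := by linarith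
  have π1 : π ≤ 16 * τ := by linarith
  have ρ0 : 0 ≤ ρ := by rw [hρ]; positivity
  have e1 : (p - q) ^ 2 ≤ 0.0207 * 0.0207 := gad_sq_le pq1 pq2 le_rfl
  have ρ1 : ρ ≤ 0.00015 := by rw [hρ]; norm_num at e1 ⊢; linarith
  have hsum : 2 - ρ ≤ yp + yq := by
    apply gad_le_of_sq (by linarith)
    have h1 : 0 ≤ ρ * (0.00015 - ρ) := mul_nonneg ρ0 (by linarith)
    have h2 : (p - q) ^ 2 = 3 * ρ := by rw [hρ]; ring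
    rw [h2] at d11
    clear * - h1 d11 ρ0
    linarith
  obtain ⟨α, β, α0, β0, αβ, hq1, hq2, hsq⟩ := gad_lower1 (v := v) (v' := v') (s := s) (b1 := b1)
    (z1 := z1) (q := q) (yq := yq) (b2 := b2) (z2 := z2) (π := π) (ρ := ρ) hr hr1 hr2 hτ0 hτ hγ
    hγ' hv1 hv2 hv1' hv2' hs' z10 z11 z20 z21 B1 B2 yq0 (by linarith) π0 π1 ρ0 ρ1 hbq hqb d2 d4
    d6 d8
  clear d2 d4 d6 d8 d11
  have D1 : p - q ≤ 8.2 * τ + 0.15 * ρ := by clear * - p2 hq1 hs'; linarith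
  have D2 : -(8.2 * τ + 0.15 * ρ) ≤ p - q := by clear * - p1 hq2 hs'; linarith
  have e2 : (p - q) ^ 2 ≤ (8.2 * τ + 0.15 * ρ) * 0.0207 := by
    apply gad_sq_le D2 D1
    clear * - hτ ρ1
    linarith
  have ρ2 : ρ ≤ 0.06 * τ := by rw [hρ] at e2 ⊢; clear * - e2 hτ0; linarith
  have e3 : (p - q) ^ 2 ≤ (8.3 * τ) * (8.3 * τ) := by
    apply gad_sq_le _ _ le_rfl
    · clear * - D2 ρ2 hτ0; linarith
    · clear * - D1 ρ2 hτ0; linarith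
  have ρ3 : ρ ≤ 23 * τ ^ 2 := by rw [hρ]; clear * - e3; nlinarith
  have w1 : (γ - α + v) ^ 2 ≤ (10 * τ) * (10 * τ) := by
    apply gad_sq_le _ _ le_rfl
    · clear * - αβ β0 ρ2 hγ hv1 hτ0; linarith
    · clear * - α0 hγ' hv2 hτ0; linarith
  have w2 : (γ - β + v') ^ 2 ≤ (10 * τ) * (10 * τ) := by
    apply gad_sq_le _ _ le_rfl
    · clear * - αβ α0 ρ2 hγ hv1' hτ0; linarith
    · clear * - β0 hγ' hv2' hτ0; linarith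
  have w3 : (-3 * γ - α - π + ρ) ^ 2 ≤ (30 * τ) * (30 * τ) := by
    apply gad_sq_le _ _ le_rfl
    · clear * - αβ β0 ρ2 ρ0 hγ' π1 hτ0; linarith
    · clear * - α0 ρ2 hγ π0 hτ0; linarith
  have w4 : (-3 * γ - β - π + ρ) ^ 2 ≤ (30 * τ) * (30 * τ) := by
    apply gad_sq_le _ _ le_rfl
    · clear * - αβ α0 ρ2 ρ0 hγ' π1 hτ0; linarith
    · clear * - β0 ρ2 hγ π0 hτ0; linarith
  have m : 0 ≤ (1.73206 - r) * ρ := mul_nonneg (by linarith) ρ0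
  have n0 : 0 ≤ τ ^ 2 := sq_nonneg τ
  clear * - hsq w1 w2 w3 w4 m n0 ρ3
  linarith

/-- The case where the middle disk of the upper chain is high. -/
theorem gad_core {r τ γ v v' s a1 y1 b1 z1 p yp q yq a2 y2 b2 z2 : ℝ} (hr : r ^ 2 = 3)
    (hr1 : 1.73205 ≤ r) (hr2' : r ≤ 1.732051) (hτ0 : 0 < τ)
    (hτ : τ ≤ 1 / 2 ^ 14) (hγ : 0 ≤ γ) (hγ' : γ ≤ 2 * τ) (hv : |v| ≤ τ) (hv' : |v'| ≤ τ)
    (hs' : s ≤ 30 / 7 * r + 3 * τ) (yp0 : 1 ≤ yp)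
    (hy1 : 0 ≤ y1 ∧ y1 ≤ 1 + γ) (hz1 : 0 ≤ z1 ∧ z1 ≤ 1 + γ) (hy2 : 0 ≤ y2 ∧ y2 ≤ 1 + γ)
    (hz2 : 0 ≤ z2 ∧ z2 ≤ 1 + γ) (hyp : 0 ≤ yp ∧ yp ≤ 9 / 7 - 4 * γ)
    (hyq : 0 ≤ yq ∧ yq ≤ 9 / 7 - 4 * γ)
    (ha1 : 0 ≤ a1) (hb1 : 0 ≤ b1) (ha2 : 0 ≤ a2) (hb2 : 0 ≤ b2)
    (hap : a1 ≤ p) (hbq : b1 ≤ q) (hpa : p ≤ s - a2) (hqb : q ≤ s - b2)
    (d1 : 4 ≤ a1 ^ 2 + (y1 - v) ^ 2) (d2 : 4 ≤ b1 ^ 2 + (z1 + v) ^ 2)
    (d3 : 4 ≤ a2 ^ 2 + (y2 - v') ^ 2) (d4 : 4 ≤ b2 ^ 2 + (z2 + v') ^ 2)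
    (d5 : 4 ≤ (p - a1) ^ 2 + (yp - y1) ^ 2) (d6 : 4 ≤ (q - b1) ^ 2 + (yq - z1) ^ 2)
    (d7 : 4 ≤ (s - a2 - p) ^ 2 + (yp - y2) ^ 2) (d8 : 4 ≤ (s - b2 - q) ^ 2 + (yq - z2) ^ 2)
    (d9 : 4 ≤ (a1 - b1) ^ 2 + (y1 + z1) ^ 2) (d10 : 4 ≤ (a2 - b2) ^ 2 + (y2 + z2) ^ 2)
    (d11 : 4 ≤ (p - q) ^ 2 + (yp + yq) ^ 2) :
    30 / 7 * r + |v + v' + γ / 2| * r / 3 - 1000 * τ ^ 2 ≤ s := by
  have hr2 : r ≤ 1.73206 := by linarith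
  have hs : s ≤ 7.42327 := by
    have : τ ≤ 0.0000611 := hτ.trans (by norm_num)
    clear * - hs' hr2' this
    linarith
  obtain ⟨⟨A1, A2, B1, B2⟩, ⟨Y1, Y2, Z1, Z2⟩, -, pq1, pq2⟩ := gad_rounds hτ0 hτ hγ hγ' hv hv' hs
    hy1 hz1 hy2 hz2 hyp hyq ha1 hb1 ha2 hb2 hap hbq hpa hqb d1 d2 d3 d4 d5 d6 d7 d8 d9 d10 d11
  obtain ⟨hv1, hv2⟩ := abs_le.mp hv
  obtain ⟨hv1', hv2'⟩ := abs_le.mp hv'
  have hτ' : τ ≤ 0.0000611 := hτ.trans (by norm_num)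
  obtain ⟨U, p1, p2, yp2⟩ := gad_upper hr hr1 hr2 hτ0 hτ' hγ hγ' hv1 hv2 hv1' hv2' hs hs'
    Y1 hy1.2 Y2 hy2.2 A1 A2 yp0 hyp.2 hap hpa d1 d3 d5 d7
  have n0 : 0 ≤ τ ^ 2 := sq_nonneg τ
  have hL : 30 / 7 * r - (v + v' + γ / 2) * r / 3 - 1000 * τ ^ 2 ≤ s := by
    rcases le_total yq 1 with h | h
    · exact gad_lower hr hr1 hr2 hτ0 hτ' hγ hγ' hv1 hv2 hv1' hv2' hs' Z1 hz1.2 Z2 hz2.2 hb1 hb2
        h hyq.1 hyp.2 yp2 p1 p2 pq1 pq2 hbq hqb d2 d4 d6 d8 d11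
    · obtain ⟨V, -⟩ := gad_upper (v := -v) (v' := -v') hr hr1 hr2 hτ0 hτ' hγ hγ'
        (by linarith) (by linarith) (by linarith) (by linarith) hs hs'
        Z1 hz1.2 Z2 hz2.2 B1 B2 h hyq.2 hbq hqb (by rwa [sub_neg_eq_add])
        (by rwa [sub_neg_eq_add]) d6 d8
      have m : 0 ≤ γ * r := mul_nonneg hγ (by linarith)
      clear * - V m n0
      linarith
  rcases le_total 0 (v + v' + γ / 2) with h | h
  · rw [abs_of_nonneg h]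
    clear * - U n0
    linarith
  · rw [abs_of_nonpos h]
    clear * - hL
    linarith

/-- The two middle disks cannot both be low. -/
theorem gad_not_both {τ γ s a1 y1 p yp yq a2 y2 : ℝ} (hγ2 : γ ≤ 0.0001222)
    (hs : s ≤ 7.42327) (Y1 : 0.99976 ≤ y1) (Y2 : 0.99976 ≤ y2) (y11 : y1 ≤ 1 + γ)
    (y21 : y2 ≤ 1 + γ) (A1 : 1.7319 ≤ a1) (A2 : 1.7319 ≤ a2) (hap : a1 ≤ p) (hpa : p ≤ s - a2)
    (h : 1.99989 ≤ yp + yq) (hp : yp < 1) (hq : yq < 1)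
    (d5 : 4 ≤ (p - a1) ^ 2 + (yp - y1) ^ 2) (d7 : 4 ≤ (s - a2 - p) ^ 2 + (yp - y2) ^ 2) :
    False := by
  have h1 : 1.9999 ≤ p - a1 :=
    gad_t0 (c := 0.001) (by linarith) d5 (by linarith) (by linarith) (by norm_num)
  have h2 : 1.9999 ≤ s - a2 - p :=
    gad_t0 (c := 0.001) (by linarith) d7 (by linarith) (by linarith) (by norm_num)
  linarith

/-- B: the gadget lemma. -/
theorem gadget {τ γ v v' s a1 y1 b1 z1 p yp q yq a2 y2 b2 z2 : ℝ} (hτ0 : 0 < τ)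
    (hτ : τ ≤ 1 / 2 ^ 14) (hγ : 0 ≤ γ) (hγ' : γ ≤ 2 * τ) (hv : |v| ≤ τ) (hv' : |v'| ≤ τ)
    (hy1 : 0 ≤ y1 ∧ y1 ≤ 1 + γ) (hz1 : 0 ≤ z1 ∧ z1 ≤ 1 + γ) (hy2 : 0 ≤ y2 ∧ y2 ≤ 1 + γ)
    (hz2 : 0 ≤ z2 ∧ z2 ≤ 1 + γ) (hyp : 0 ≤ yp ∧ yp ≤ 9 / 7 - 4 * γ)
    (hyq : 0 ≤ yq ∧ yq ≤ 9 / 7 - 4 * γ)
    (ha1 : 0 ≤ a1) (hb1 : 0 ≤ b1) (ha2 : 0 ≤ a2) (hb2 : 0 ≤ b2)
    (hap : a1 ≤ p) (hbq : b1 ≤ q) (hpa : p ≤ s - a2) (hqb : q ≤ s - b2)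
    (d1 : 4 ≤ a1 ^ 2 + (y1 - v) ^ 2) (d2 : 4 ≤ b1 ^ 2 + (z1 + v) ^ 2)
    (d3 : 4 ≤ a2 ^ 2 + (y2 - v') ^ 2) (d4 : 4 ≤ b2 ^ 2 + (z2 + v') ^ 2)
    (d5 : 4 ≤ (p - a1) ^ 2 + (yp - y1) ^ 2) (d6 : 4 ≤ (q - b1) ^ 2 + (yq - z1) ^ 2)
    (d7 : 4 ≤ (s - a2 - p) ^ 2 + (yp - y2) ^ 2) (d8 : 4 ≤ (s - b2 - q) ^ 2 + (yq - z2) ^ 2)
    (d9 : 4 ≤ (a1 - b1) ^ 2 + (y1 + z1) ^ 2) (d10 : 4 ≤ (a2 - b2) ^ 2 + (y2 + z2) ^ 2)
    (d11 : 4 ≤ (p - q) ^ 2 + (yp + yq) ^ 2) :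
    30 / 7 * √3 + |v + v' + γ / 2| / √3 - 1000 * τ ^ 2 ≤ s ∨
    30 / 7 * √3 + |v + v' - γ / 2| / √3 - 1000 * τ ^ 2 ≤ s := by
  obtain ⟨r, hrdef⟩ : ∃ r, r = √3 := ⟨_, rfl⟩
  have hr : r ^ 2 = 3 := by rw [hrdef]; exact Real.sq_sqrt (by norm_num)
  have hrpos : 0 ≤ r := by rw [hrdef]; positivity
  have hr1 : 1.73205 ≤ r := by
    apply gad_le_of_sq hrpos
    rw [hr]
    norm_num
  have hr2' : r ≤ 1.732051 := by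
    apply gad_le_of_sq (by norm_num)
    rw [hr]
    norm_num
  have hr2 : r ≤ 1.73206 := by linarith
  have hdiv : ∀ x : ℝ, x / √3 = x * r / 3 := by
    intro x
    rw [← hrdef, div_eq_div_iff (by linarith) (by norm_num)]
    linear_combination (-x) * hr
  rw [hdiv, hdiv, ← hrdef]
  have hτ' : τ ≤ 0.0000611 := hτ.trans (by norm_num)
  have n0 : 0 ≤ τ ^ 2 := sq_nonneg τ
  obtain ⟨hv1, hv2⟩ := abs_le.mp hv
  obtain ⟨hv1', hv2'⟩ := abs_le.mp hv'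
  by_cases hs' : s ≤ 30 / 7 * r + 3 * τ
  · rcases le_or_gt 1 yp with h | h
    · left
      exact gad_core hr hr1 hr2' hτ0 hτ hγ hγ' hv hv' hs' h hy1 hz1 hy2 hz2 hyp hyq ha1 hb1 ha2 hb2
        hap hbq hpa hqb d1 d2 d3 d4 d5 d6 d7 d8 d9 d10 d11
    · rcases le_or_gt 1 yq with h' | h'
      · right
        have := gad_core (v := -v) (v' := -v') hr hr1 hr2' hτ0 hτ hγ hγ' (by rwa [abs_neg])
          (by rwa [abs_neg]) hs' h' hz1 hy1 hz2 hy2 hyq hyp hb1 ha1 hb2 ha2 hbq hap hqb hpa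
          (by rwa [sub_neg_eq_add]) (by rwa [← sub_eq_add_neg]) (by rwa [sub_neg_eq_add])
          (by rwa [← sub_eq_add_neg]) d6 d5 d8 d7 (by convert d9 using 2 <;> ring)
          (by convert d10 using 2 <;> ring) (by convert d11 using 2 <;> ring)
        have e : |(-v) + (-v') + γ / 2| = |v + v' - γ / 2| := by
          rw [← abs_neg]
          congr 1
          ring
        rwa [e] at this
      · exfalso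
        have hs : s ≤ 7.42327 := by
          clear * - hs' hr2' hτ'
          linarith
        obtain ⟨⟨A1, A2, B1, B2⟩, ⟨Y1, Y2, Z1, Z2⟩, hpq, -, -⟩ := gad_rounds hτ0 hτ hγ hγ' hv hv'
          hs hy1 hz1 hy2 hz2 hyp hyq ha1 hb1 ha2 hb2 hap hbq hpa hqb d1 d2 d3 d4 d5 d6 d7 d8 d9
          d10 d11
        exact gad_not_both (τ := τ) (γ := γ) (by linarith) hs Y1 Y2 hy1.2 hy2.2 A1 A2 hap hpa hpq
          h h' d5 d7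
  · left
    push Not at hs'
    have h1 : |v + v' + γ / 2| ≤ 3 * τ := by
      rw [abs_le]
      constructor <;> linarith
    have h2 : 0 ≤ (1.73206 - r) * |v + v' + γ / 2| := mul_nonneg (by linarith) (abs_nonneg _)
    clear * - h1 h2 hs' n0 hτ0
    linarith

end Pool.Agent.Helper97.UDP
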